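import Pool.Agent.helper47.MSW.SpecA

set_option autoImplicit false

namespace Pool.Agent.MSW

open Equiv Finset Function MeasureTheory Pool.Agent.helper48.PP
open Pool.Agent.DSW (Pr Has GP wt)
open scoped ENNReal Classical

theorem FLT_lt1 {k l : ℕ} {i j : Fin k} : Fin.castAdd l i < Fin.castAdd l j ↔ i < j := by
  rw [Fin.lt_def, Fin.lt_def, Fin.val_castAdd, Fin.val_castAdd]

theorem FLT_lt2 {k l : ℕ} {i j : Fin l} : Fin.natAdd k i < Fin.natAdd k j ↔ i < j := by
  rw [Fin.lt_def, Fin.lt_def, Fin.val_natAdd, Fin.val_natAdd]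
  omega

theorem FLT_append_mono {k l : ℕ} (f : Fin k → ℕ) (g : Fin l → ℕ) (hf : StrictMono f)
    (hg : StrictMono g) (hfg : ∀ i j, f i < g j) : StrictMono (Fin.append f g) := by
  intro i j hij
  induction i using Fin.addCases with
  | left i =>
    induction j using Fin.addCases with
    | left j =>
      rw [Fin.append_left, Fin.append_left]
      exact hf (FLT_lt1.1 hij)
    | right j =>
      rw [Fin.append_left, Fin.append_right]
      exact hfg i j
  | right i =>
    induction j using Fin.addCases with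
    | left j =>
      exfalso
      rw [Fin.lt_def] at hij
      simp only [Fin.val_natAdd, Fin.val_castAdd] at hij
      omega
    | right j =>
      rw [Fin.append_right, Fin.append_right]
      exact hg (FLT_lt2.1 hij)

theorem FLT_split {w l : ℕ} (τ : Perm (Fin (w + 1))) (σ : Perm (Fin l)) (ω : Om) (a z : Pt) :
    (∃ m : Pt, HP τ ω a m ∧ HP σ ω m z) ↔ HP (dsum τ σ) ω a z := by
  constructor
  · rintro ⟨m, ⟨ham, x₁, y₁, hx₁, hy₁, h₁⟩, ⟨hmz, x₂, y₂, hx₂, hy₂, h₂⟩⟩
    refine ⟨ham.trans hmz, Fin.append x₁ x₂, Fin.append y₁ y₂, ?_, ?_, ?_⟩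
    · exact FLT_append_mono x₁ x₂ hx₁ hx₂ (fun i j =>
        lt_of_lt_of_le (h₁ i).2.1.2 (h₂ j).2.1.1)
    · exact FLT_append_mono y₁ y₂ hy₁ hy₂ (fun i j =>
        lt_of_lt_of_le (h₁ i).2.2.2 (h₂ j).2.2.1)
    · intro j
      induction j using Fin.addCases with
      | left j =>
        rw [dsum_castAdd, Fin.append_left, Fin.append_left, Fin.append_left]
        obtain ⟨e1, e2, e3⟩ := h₁ j
        exact ⟨e1, ⟨e2.1, lt_of_lt_of_le e2.2 hmz.1⟩, ⟨e3.1, lt_of_lt_of_le e3.2 hmz.2⟩⟩
      | right j =>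
        rw [dsum_natAdd, Fin.append_right, Fin.append_right, Fin.append_right]
        obtain ⟨e1, e2, e3⟩ := h₂ j
        exact ⟨e1, ⟨ham.1.trans e2.1, e2.2⟩, ⟨ham.2.trans e3.1, e3.2⟩⟩
  · rintro ⟨haz, x, y, hx, hy, h⟩
    set L : Fin (w + 1 + l) := Fin.castAdd l (Fin.last w) with hL
    have hc : ∀ j : Fin (w + 1), Fin.castAdd l j ≤ L := by
      intro j
      rw [hL, Fin.le_def]
      simp only [Fin.val_castAdd, Fin.val_last]
      omega
    have hn : ∀ j : Fin l, L < Fin.natAdd (w + 1) j := by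
      intro j
      rw [hL, Fin.lt_def]
      simp only [Fin.val_castAdd, Fin.val_last, Fin.val_natAdd]
      omega
    obtain ⟨-, hL1, hL2⟩ := h L
    refine ⟨(x L + 1, y L + 1), ⟨⟨by simp only; omega, by simp only; omega⟩,
      fun j => x (Fin.castAdd l j), fun j => y (Fin.castAdd l j), ?_, ?_, ?_⟩,
      ⟨⟨by simp only; omega, by simp only; omega⟩,
      fun j => x (Fin.natAdd (w + 1) j), fun j => y (Fin.natAdd (w + 1) j), ?_, ?_, ?_⟩⟩
    · intro i j hij
      exact hx (FLT_lt1.2 hij)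
    · intro i j hij
      exact hy (FLT_lt1.2 hij)
    · intro j
      obtain ⟨e1, e2, e3⟩ := h (Fin.castAdd l j)
      rw [dsum_castAdd] at e1
      have e4 := hx.monotone (hc j)
      have e5 := hy.monotone (hc j)
      exact ⟨e1, ⟨e2.1, by simp only; omega⟩, ⟨e3.1, by simp only; omega⟩⟩
    · intro i j hij
      exact hx (FLT_lt2.2 hij)
    · intro i j hij
      exact hy (FLT_lt2.2 hij)
    · intro j
      obtain ⟨e1, e2, e3⟩ := h (Fin.natAdd (w + 1) j)
      rw [dsum_natAdd] at e1
      have e4 := hx (hn j)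
      have e5 := hy (hn j)
      exact ⟨e1, ⟨by simp only; omega, e2.2⟩, ⟨by simp only; omega, e3.2⟩⟩

theorem FLT (hHLA : HLA_stmt) : FLT_stmt := by
  refine ⟨?_, ?_⟩
  · intro X ω
    induction X with
    | nil =>
      intro a z
      constructor
      · intro h
        exact ⟨h, fun j => j.elim0, fun j => j.elim0, fun j => j.elim0, fun j => j.elim0,
          fun j => j.elim0⟩
      · intro h
        exact h.1
    | cons b l ih =>
      intro a z
      have h1 : HL (b :: l) ω a z ↔ ∃ m : Pt, HP b.2 ω a m ∧ HP (flat l).2 ω m z := by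
        show (∃ m : Pt, HP b.2 ω a m ∧ HL l ω m z) ↔ _
        constructor
        · rintro ⟨m, h1, h2⟩
          exact ⟨m, h1, (ih m z).1 h2⟩
        · rintro ⟨m, h1, h2⟩
          exact ⟨m, h1, (ih m z).2 h2⟩
      rw [h1]
      exact FLT_split b.2 (flat l).2 ω a z
  · intro X
    induction X with
    | nil => rfl
    | cons b l ih =>
      have h1 : (flat (b :: l)).1 = b.1 + 1 + (flat l).1 := rfl
      have h2 : tl (b :: l) = b.1 + 1 + tl l := by
        unfold tl
        rw [List.map_cons, List.sum_cons]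
      rw [h1, h2, ih]

end Pool.Agent.MSW
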